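import Pool.Agent.H17R.Point
import Pool.Agent.H17BP.MapIdeal

/-!
# Bir Alg: birational maps and function fields

* `exists_form`: homogenisation.
* `funIso`: a generic point `x` of the variety of `Q`, with coordinates which generate the field `L`, gives `FunField Q ≃ L`.
* `IsBir`: a birational map between the varieties of `P` and `P'`, given by forms.
* `exists_isBir`: it exists if the function fields are isomorphic.
* `exists_sub`: images of subvarieties.
-/

set_option autoImplicit false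

open MvPolynomial

noncomputable section

namespace Pool.Agent.H7.Bir

open Pool.Agent.H17GT (coordFun functionField)
open Pool.Agent.H17LG.Variety (FunField ratio)
open Pool.Agent.H62.FC (Homog)
open Pool.Agent.H17R (gen gen_eq_zero_iff ratio_self adjoin_ratio coordFun_ne_zero_iff)
open Pool.Agent.H92.GT.Proj (aeval_scale)

variable {N M : ℕ}

theorem exists_form (j : Fin (N + 1)) (p : MvPolynomial (Fin (N + 1)) ℂ) : ∃ D₀ : ℕ, ∀ D ≥ D₀,
    ∃ R : MvPolynomial (Fin (N + 1)) ℂ, R.IsHomogeneous D ∧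
      ∀ (K : Type) [Field K] [Algebra ℂ K] (x : Fin (N + 1) → K), x j = 1 → aeval x R = aeval x p := by
  induction p using MvPolynomial.induction_on with
  | C c =>
    refine ⟨0, fun D _ => ⟨MvPolynomial.C c * X j ^ D, ?_, ?_⟩⟩
    · have h1 := (isHomogeneous_C (Fin (N + 1)) c).mul ((isHomogeneous_X ℂ j).pow D)
      simpa using h1
    · intro K _ _ x hx
      simp [hx]
  | add p q hp hq =>
    obtain ⟨D₁, h1⟩ := hp
    obtain ⟨D₂, h2⟩ := hq
    refine ⟨max D₁ D₂, fun D hD => ?_⟩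
    obtain ⟨R₁, h3, h4⟩ := h1 D ((le_max_left _ _).trans hD)
    obtain ⟨R₂, h5, h6⟩ := h2 D ((le_max_right _ _).trans hD)
    refine ⟨R₁ + R₂, h3.add h5, ?_⟩
    intro K _ _ x hx
    rw [map_add, map_add, h4 K x hx, h6 K x hx]
  | mul_X p i hp =>
    obtain ⟨D₁, h1⟩ := hp
    refine ⟨D₁ + 1, fun D hD => ?_⟩
    obtain ⟨D', rfl⟩ : ∃ D', D = D' + 1 := ⟨D - 1, by omega⟩
    obtain ⟨R₁, h3, h4⟩ := h1 D' (by omega)
    refine ⟨R₁ * X i, h3.mul (isHomogeneous_X ℂ i), ?_⟩
    intro K _ _ x hx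
    rw [map_mul, map_mul, h4 K x hx]

/-- Homogenisation of finitely many polynomials. -/
theorem exists_forms (j : Fin (N + 1)) {ι : Type} [Fintype ι] (p : ι → MvPolynomial (Fin (N + 1)) ℂ) : ∃ (D : ℕ)
    (R : ι → MvPolynomial (Fin (N + 1)) ℂ), (∀ i, (R i).IsHomogeneous D) ∧
      ∀ (K : Type) [Field K] [Algebra ℂ K] (x : Fin (N + 1) → K), x j = 1 → ∀ i, aeval x (R i) = aeval x (p i) := by
  choose D₀ h using fun i => exists_form j (p i)
  choose R hR hR' using fun i => h i (∑ i, D₀ i) (Finset.single_le_sum (f := D₀) (fun i _ => Nat.zero_le _) (Finset.mem_univ i))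
  exact ⟨∑ i, D₀ i, R, hR, fun K _ _ x hx i => hR' i K x hx⟩

open scoped IntermediateField.algebraAdjoinAdjoin in
/-- Finitely many elements of a field generated by `x` are quotients of forms in `x` with the same denominator. -/
theorem exists_quot {L : Type} [Field L] [Algebra ℂ L] {x : Fin (N + 1) → L} {j : Fin (N + 1)} (hx : x j = 1)
    (hadj : IntermediateField.adjoin ℂ (Set.range x) = ⊤) (y : Fin (M + 1) → L) {j' : Fin (M + 1)} (hy : y j' = 1) :
    ∃ (D : ℕ) (α : Fin (M + 1) → MvPolynomial (Fin (N + 1)) ℂ), (∀ i, (α i).IsHomogeneous D) ∧ aeval x (α j') ≠ 0 ∧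
      ∀ i, y i * aeval x (α j') = aeval x (α i) := by
  classical
  have hmem : ∀ i, y i ∈ IntermediateField.adjoin ℂ (Set.range x) := fun i => by
    rw [hadj]
    trivial
  obtain ⟨b, hb⟩ := IsLocalization.exist_integer_multiples_of_finset (nonZeroDivisors (Algebra.adjoin ℂ (Set.range x)))
    (Finset.univ.image fun i => (⟨y i, hmem i⟩ : IntermediateField.adjoin ℂ (Set.range x)))
  have hpol : ∀ c : Algebra.adjoin ℂ (Set.range x), ∃ g : MvPolynomial (Fin (N + 1)) ℂ, aeval x g = (c : L) := by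
    intro c
    obtain ⟨g, hg⟩ := (SetLike.ext_iff.1 (Algebra.adjoin_range_eq_range_aeval ℂ x) (c : L)).1 c.2
    exact ⟨g, hg⟩
  obtain ⟨q, hq⟩ := hpol b
  have hp : ∀ i, ∃ g : MvPolynomial (Fin (N + 1)) ℂ, aeval x g = y i * aeval x q := by
    intro i
    obtain ⟨c, hc⟩ := hb ⟨y i, hmem i⟩ (Finset.mem_image_of_mem _ (Finset.mem_univ i))
    obtain ⟨g, hg⟩ := hpol c
    refine ⟨g, ?_⟩
    have h1 := congrArg Subtype.val hc
    rw [hg, hq, mul_comm]
    exact h1
  choose p hp using hp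
  obtain ⟨D, α, hα, hα'⟩ := exists_forms j p
  have h1 : ∀ i, aeval x (α i) = y i * aeval x q := fun i => by rw [hα' L x hx i, hp]
  have h2 : aeval x q ≠ 0 := by
    rw [hq]
    intro h0
    exact nonZeroDivisors.ne_zero b.2 (Subtype.ext h0)
  refine ⟨D, α, hα, ?_, fun i => ?_⟩
  · rw [h1, hy, one_mul]
    exact h2
  · rw [h1, h1, hy, one_mul]

open scoped IntermediateField.algebraAdjoinAdjoin in
theorem funIso {Q : Ideal (MvPolynomial (Fin (N + 1)) ℂ)} [Q.IsPrime] {j : Fin (N + 1)} (hj : coordFun Q j ≠ 0)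
    {L : Type} [Field L] [Algebra ℂ L] {x : Fin (N + 1) → L} (hx : x j = 1)
    (hadj : IntermediateField.adjoin ℂ (Set.range x) = ⊤)
    (h : ∀ (n : ℕ) (G : MvPolynomial (Fin (N + 1)) ℂ), G.IsHomogeneous n → (aeval x G = 0 ↔ G ∈ Q)) :
    Nonempty (FunField Q ≃ₐ[ℂ] L) := by
  set ξ : Fin (N + 1) → FunField Q := fun i => ratio Q i j with hξ
  have hker : RingHom.ker (aeval ξ : MvPolynomial (Fin (N + 1)) ℂ →ₐ[ℂ] FunField Q) =
      RingHom.ker (aeval x : MvPolynomial (Fin (N + 1)) ℂ →ₐ[ℂ] L) := by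
    ext G
    rw [RingHom.mem_ker, RingHom.mem_ker]
    obtain ⟨D, h1⟩ := exists_form j G
    obtain ⟨R, h2, h3⟩ := h1 D le_rfl
    rw [← h3 _ ξ (ratio_self hj), ← h3 _ x hx, h D R h2]
    exact gen_eq_zero_iff hj h2
  have e1 : Algebra.adjoin ℂ (Set.range ξ) ≃ₐ[ℂ] Algebra.adjoin ℂ (Set.range x) :=
    (Subalgebra.equivOfEq _ _ (Algebra.adjoin_range_eq_range_aeval ℂ ξ)).trans
      ((Ideal.quotientKerEquivRange (aeval ξ : MvPolynomial (Fin (N + 1)) ℂ →ₐ[ℂ] FunField Q)).symm.trans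
        ((Ideal.quotientEquivAlgOfEq ℂ hker).trans
          ((Ideal.quotientKerEquivRange (aeval x : MvPolynomial (Fin (N + 1)) ℂ →ₐ[ℂ] L)).trans
            (Subalgebra.equivOfEq _ _ (Algebra.adjoin_range_eq_range_aeval ℂ x)).symm)))
  have e2 : IntermediateField.adjoin ℂ (Set.range ξ) ≃ₐ[ℂ] IntermediateField.adjoin ℂ (Set.range x) :=
    IsFractionRing.algEquivOfAlgEquiv e1
  have e3 : IntermediateField.adjoin ℂ (Set.range ξ) ≃ₐ[ℂ] FunField Q :=
    (IntermediateField.equivOfEq (adjoin_ratio hj)).trans IntermediateField.topEquiv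
  have e4 : IntermediateField.adjoin ℂ (Set.range x) ≃ₐ[ℂ] L :=
    (IntermediateField.equivOfEq hadj).trans IntermediateField.topEquiv
  exact ⟨e3.symm.trans (e2.trans e4)⟩

/-- The forms `α i` and `γ i` define birational maps, inverse to each other, between the varieties of `P` and `P'`. -/
structure IsBir (P : Ideal (MvPolynomial (Fin (N + 1)) ℂ)) (P' : Ideal (MvPolynomial (Fin (M + 1)) ℂ)) (D D' : ℕ)
    (α : Fin (M + 1) → MvPolynomial (Fin (N + 1)) ℂ) (γ : Fin (N + 1) → MvPolynomial (Fin (M + 1)) ℂ)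
    (j : Fin (N + 1)) (j' : Fin (M + 1)) : Prop where
  homα : ∀ i, (α i).IsHomogeneous D
  homγ : ∀ i, (γ i).IsHomogeneous D'
  maps : ∀ n R, R.IsHomogeneous n → (aeval γ R ∈ P' ↔ R ∈ P)
  hj' : X j' ∉ P'
  hγ : γ j ∉ P'
  hα : aeval γ (α j') ∉ P'
  inv : ∀ i, aeval γ (α i) * X j' - aeval γ (α j') * X i ∈ P'

theorem aeval_comp {K : Type} [Field K] [Algebra ℂ K] (x : Fin (M + 1) → K) (γ : Fin (N + 1) → MvPolynomial (Fin (M + 1)) ℂ)
    (R : MvPolynomial (Fin (N + 1)) ℂ) : aeval x (aeval γ R) = aeval (fun i => aeval x (γ i)) R := by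
  rw [← AlgHom.comp_apply, MvPolynomial.comp_aeval]

theorem aeval_div {K : Type} [Field K] [Algebra ℂ K] {n : ℕ} {R : MvPolynomial (Fin (N + 1)) ℂ} (hR : R.IsHomogeneous n)
    {c : K} (hc : c ≠ 0) (y : Fin (N + 1) → K) : aeval y R = c ^ n * aeval (fun i => y i / c) R := by
  rw [← aeval_scale hR]
  congr 2
  funext i
  rw [mul_div_cancel₀ _ hc]

theorem exists_isBir {P : Ideal (MvPolynomial (Fin (N + 1)) ℂ)} [P.IsPrime] {P' : Ideal (MvPolynomial (Fin (M + 1)) ℂ)}
    [P'.IsPrime] (e : FunField P' ≃ₐ[ℂ] FunField P) {j : Fin (N + 1)} (hj : coordFun P j ≠ 0) {j' : Fin (M + 1)}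
    (hj' : coordFun P' j' ≠ 0) :
    ∃ (D D' : ℕ) (α : Fin (M + 1) → MvPolynomial (Fin (N + 1)) ℂ) (γ : Fin (N + 1) → MvPolynomial (Fin (M + 1)) ℂ),
      IsBir P P' D D' α γ j j' := by
  set ξ : Fin (N + 1) → FunField P := fun i => ratio P i j with hξ
  set η : Fin (M + 1) → FunField P' := fun i => ratio P' i j' with hη
  have hξ1 : ξ j = 1 := ratio_self hj
  have hη1 : η j' = 1 := ratio_self hj'
  obtain ⟨D, α, hα, hα0, hα1⟩ := exists_quot hξ1 (adjoin_ratio hj) (fun i => e (η i)) (j' := j') (by simp only [hη1, map_one])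
  obtain ⟨D', γ, hγ, hγ0, hγ1⟩ := exists_quot hη1 (adjoin_ratio hj') (fun i => e.symm (ξ i)) (j' := j) (by
    simp only [hξ1, map_one])
  have h1 : (fun i => aeval η (γ i) / aeval η (γ j)) = fun i => e.symm (ξ i) := by
    funext i
    rw [← hγ1, mul_div_cancel_right₀ _ hγ0]
  have hsymm : ∀ R : MvPolynomial (Fin (N + 1)) ℂ, aeval (fun i => e.symm (ξ i)) R = e.symm (aeval ξ R) := by
    intro R
    have h2 := DFunLike.congr_fun (MvPolynomial.comp_aeval ξ (e.symm : FunField P →ₐ[ℂ] FunField P')) R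
    exact h2.symm
  have h2 : ∀ (n : ℕ) (R : MvPolynomial (Fin (N + 1)) ℂ), R.IsHomogeneous n →
      aeval η (aeval γ R) = aeval η (γ j) ^ n * e.symm (aeval ξ R) := by
    intro n R hR
    rw [aeval_comp, aeval_div hR hγ0, h1, hsymm]
  have hα2 : aeval η (aeval γ (α j')) ≠ 0 := by
    rw [h2 D _ (hα j')]
    refine mul_ne_zero (pow_ne_zero _ hγ0) fun h => hα0 ?_
    have h3 := congrArg e h
    rwa [e.apply_symm_apply, map_zero] at h3
  refine ⟨D, D', α, γ, hα, hγ, ?_, (coordFun_ne_zero_iff).1 hj', ?_, ?_, ?_⟩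
  · intro n R hR
    have h3 : (aeval γ R).IsHomogeneous (D' * n) := hR.aeval γ hγ
    rw [← gen_eq_zero_iff hj' h3, ← gen_eq_zero_iff hj hR]
    change aeval η (aeval γ R) = 0 ↔ aeval ξ R = 0
    rw [h2 n R hR, mul_eq_zero, map_eq_zero_iff e.symm e.symm.injective]
    exact ⟨fun h => h.resolve_left (pow_ne_zero _ hγ0), Or.inr⟩
  · intro h
    exact hγ0 ((gen_eq_zero_iff hj' (hγ j)).2 h)
  · intro h
    exact hα2 ((gen_eq_zero_iff hj' ((hα j').aeval γ hγ)).2 h)
  · intro i
    have h3 : (aeval γ (α i) * X j' - aeval γ (α j') * X i : MvPolynomial (Fin (M + 1)) ℂ).IsHomogeneous (D' * D + 1) :=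
      ((((hα i).aeval γ hγ).mul (isHomogeneous_X ℂ j')).sub (((hα j').aeval γ hγ).mul (isHomogeneous_X ℂ i)))
    rw [← gen_eq_zero_iff hj' h3]
    change aeval η _ = 0
    rw [map_sub, map_mul, map_mul, aeval_X, aeval_X, h2 D _ (hα i), h2 D _ (hα j'), ← hα1 i, map_mul, e.symm_apply_apply, hη1]
    ring

theorem aeval_scale' {A : Type} [CommRing A] [Algebra ℂ A] {G : MvPolynomial (Fin (N + 1)) ℂ} {n : ℕ}
    (hG : G.IsHomogeneous n) (c : A) (x : Fin (N + 1) → A) :
    aeval (fun i => x i * c) G = aeval x G * c ^ n := by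
  rw [aeval_def, aeval_def, eval₂_eq, eval₂_eq, Finset.sum_mul]
  refine Finset.sum_congr rfl fun m hm => ?_
  have h5 : ∑ i ∈ m.support, m i = n := by
    have := hG (mem_support_iff.1 hm)
    rw [Finsupp.weight_apply, Finsupp.sum] at this
    simpa using this
  simp only [mul_pow, Finset.prod_mul_distrib]
  rw [Finset.prod_pow_eq_pow_sum, h5]
  ring

/-- The homogeneous ideal of a point with coordinates in a field. -/
def pointIdeal {L : Type} [Field L] [Algebra ℂ L] (x : Fin (N + 1) → L) : Ideal (MvPolynomial (Fin (N + 1)) ℂ) :=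
  RingHom.ker (aeval fun i => Polynomial.C (x i) * Polynomial.X : MvPolynomial (Fin (N + 1)) ℂ →ₐ[ℂ] Polynomial L)

instance {L : Type} [Field L] [Algebra ℂ L] (x : Fin (N + 1) → L) : (pointIdeal x).IsPrime :=
  RingHom.ker_isPrime _

theorem point_aeval {L : Type} [Field L] [Algebra ℂ L] (x : Fin (N + 1) → L) {n : ℕ} {R : MvPolynomial (Fin (N + 1)) ℂ}
    (hR : R.IsHomogeneous n) : aeval (fun i => Polynomial.C (x i) * Polynomial.X) R =
      Polynomial.C (aeval x R) * (Polynomial.X : Polynomial L) ^ n := by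
  rw [aeval_scale' hR]
  congr 1
  exact MvPolynomial.aeval_algebraMap_apply (B := Polynomial L) x R

theorem mem_pointIdeal_form {L : Type} [Field L] [Algebra ℂ L] (x : Fin (N + 1) → L) {n : ℕ} {R : MvPolynomial (Fin (N + 1)) ℂ}
    (hR : R.IsHomogeneous n) : R ∈ pointIdeal x ↔ aeval x R = 0 := by
  unfold pointIdeal
  rw [RingHom.mem_ker, point_aeval x hR]
  constructor
  · intro h
    have h1 := congrArg (fun p => Polynomial.coeff p n) h
    simp only [Polynomial.coeff_C_mul, Polynomial.coeff_X_pow_self, mul_one, Polynomial.coeff_zero] at h1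
    exact h1
  · intro h
    rw [h, map_zero, zero_mul]

theorem mem_pointIdeal {L : Type} [Field L] [Algebra ℂ L] (x : Fin (N + 1) → L) (R : MvPolynomial (Fin (N + 1)) ℂ) :
    R ∈ pointIdeal x ↔ ∀ n, aeval x (homogeneousComponent n R) = 0 := by
  have h1 : aeval (fun i => Polynomial.C (x i) * Polynomial.X) R = ∑ n ∈ Finset.range (R.totalDegree + 1),
      Polynomial.C (aeval x (homogeneousComponent n R)) * (Polynomial.X : Polynomial L) ^ n := by
    conv_lhs => rw [← sum_homogeneousComponent R]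
    rw [map_sum]
    exact Finset.sum_congr rfl fun n _ => point_aeval x (homogeneousComponent_isHomogeneous n R)
  constructor
  · intro h n
    by_cases hn : n ∈ Finset.range (R.totalDegree + 1)
    · have h2 : aeval (fun i => Polynomial.C (x i) * Polynomial.X) R = (0 : Polynomial L) := h
      rw [h1] at h2
      have h3 := congrArg (fun p => Polynomial.coeff p n) h2
      simp only [Polynomial.finsetSum_coeff, Polynomial.coeff_C_mul, Polynomial.coeff_X_pow, Polynomial.coeff_zero,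
        mul_ite, mul_one, mul_zero] at h3
      rw [Finset.sum_ite_eq, if_pos hn] at h3
      exact h3
    · rw [homogeneousComponent_eq_zero _ _ (by
        rw [Finset.mem_range] at hn
        omega), map_zero]
  · intro h
    change aeval (fun i => Polynomial.C (x i) * Polynomial.X) R = (0 : Polynomial L)
    rw [h1]
    exact Finset.sum_eq_zero fun n _ => by rw [h n, map_zero, zero_mul]

theorem homog_pointIdeal {L : Type} [Field L] [Algebra ℂ L] (x : Fin (N + 1) → L) : Homog (pointIdeal x) := by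
  intro R hR k
  rw [mem_pointIdeal_form x (homogeneousComponent_isHomogeneous k R)]
  exact (mem_pointIdeal x R).1 hR k

/-- The image of a subvariety. -/
theorem exists_sub {P : Ideal (MvPolynomial (Fin (N + 1)) ℂ)} (hP : Homog P) {P' : Ideal (MvPolynomial (Fin (M + 1)) ℂ)}
    {D D' : ℕ} {α : Fin (M + 1) → MvPolynomial (Fin (N + 1)) ℂ} {γ : Fin (N + 1) → MvPolynomial (Fin (M + 1)) ℂ}
    {j : Fin (N + 1)} {j' : Fin (M + 1)} (h : IsBir P P' D D' α γ j j')
    {Q' : Ideal (MvPolynomial (Fin (M + 1)) ℂ)} [Q'.IsPrime] (hPQ : P' ≤ Q') (h1 : X j' ∉ Q') (h2 : γ j ∉ Q')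
    (h3 : aeval γ (α j') ∉ Q') : ∃ (Q : Ideal (MvPolynomial (Fin (N + 1)) ℂ)) (_ : Q.IsPrime), Homog Q ∧ P ≤ Q ∧
      Nonempty (FunField Q ≃ₐ[ℂ] FunField Q') ∧ ∀ n R, R.IsHomogeneous n → (R ∈ Q ↔ aeval γ R ∈ Q') := by
  have hj' : coordFun Q' j' ≠ 0 := coordFun_ne_zero_iff.2 h1
  set η : Fin (M + 1) → FunField Q' := fun i => ratio Q' i j' with hη
  have hη1 : η j' = 1 := ratio_self hj'
  have hc : aeval η (γ j) ≠ 0 := fun h0 => h2 ((gen_eq_zero_iff hj' (h.homγ j)).1 h0)
  set x : Fin (N + 1) → FunField Q' := fun i => aeval η (γ i) / aeval η (γ j) with hx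
  have hx1 : x j = 1 := div_self hc
  have hR : ∀ (n : ℕ) (R : MvPolynomial (Fin (N + 1)) ℂ), R.IsHomogeneous n →
      aeval η (aeval γ R) = aeval η (γ j) ^ n * aeval x R := by
    intro n R hR
    rw [aeval_comp, aeval_div hR hc]
  have hmem : ∀ (n : ℕ) (R : MvPolynomial (Fin (N + 1)) ℂ), R.IsHomogeneous n → (R ∈ pointIdeal x ↔ aeval γ R ∈ Q') := by
    intro n R hRn
    rw [mem_pointIdeal_form x hRn, ← gen_eq_zero_iff hj' (hRn.aeval γ h.homγ)]
    change _ ↔ aeval η (aeval γ R) = 0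
    rw [hR n R hRn, mul_eq_zero]
    exact ⟨Or.inr, fun h => h.resolve_left (pow_ne_zero _ hc)⟩
  have hcoord : coordFun (pointIdeal x) j ≠ 0 := by
    rw [coordFun_ne_zero_iff, mem_pointIdeal_form x (isHomogeneous_X ℂ j), aeval_X, hx1]
    exact one_ne_zero
  have hadj : IntermediateField.adjoin ℂ (Set.range x) = ⊤ := by
    have hpol : ∀ R : MvPolynomial (Fin (N + 1)) ℂ, aeval x R ∈ IntermediateField.adjoin ℂ (Set.range x) := by
      intro R
      have h4 : aeval x R ∈ Algebra.adjoin ℂ (Set.range x) := by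
        rw [Algebra.adjoin_range_eq_range_aeval]
        exact ⟨R, rfl⟩
      exact IntermediateField.algebra_adjoin_le_adjoin ℂ _ h4
    rw [eq_top_iff, ← adjoin_ratio hj', IntermediateField.adjoin_le_iff]
    rintro _ ⟨i, rfl⟩
    have h4 : aeval η (aeval γ (α i) * X j' - aeval γ (α j') * X i) = 0 := by
      have h5 : (aeval γ (α i) * X j' - aeval γ (α j') * X i : MvPolynomial (Fin (M + 1)) ℂ).IsHomogeneous (D' * D + 1) :=
        ((((h.homα i).aeval γ h.homγ).mul (isHomogeneous_X ℂ j')).sub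
          (((h.homα j').aeval γ h.homγ).mul (isHomogeneous_X ℂ i)))
      exact (gen_eq_zero_iff hj' h5).2 (hPQ (h.inv i))
    rw [map_sub, map_mul, map_mul, aeval_X, aeval_X, hR D _ (h.homα i), hR D _ (h.homα j'), hη1, mul_one] at h4
    have h5 : aeval x (α j') ≠ 0 := by
      intro h0
      apply h3
      rw [← hmem D _ (h.homα j'), mem_pointIdeal_form x (h.homα j')]
      exact h0
    have h6 : η i = aeval x (α i) / aeval x (α j') := by
      rw [eq_div_iff h5]
      have h7 : aeval η (γ j) ^ D ≠ 0 := pow_ne_zero _ hc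
      apply mul_left_cancel₀ h7
      linear_combination -h4
    change η i ∈ IntermediateField.adjoin ℂ (Set.range x)
    rw [h6]
    exact div_mem (hpol _) (hpol _)
  refine ⟨pointIdeal x, inferInstance, homog_pointIdeal x, ?_, ?_, hmem⟩
  · intro R hRP
    rw [mem_pointIdeal]
    intro n
    rw [← mem_pointIdeal_form x (homogeneousComponent_isHomogeneous n R), hmem n _ (homogeneousComponent_isHomogeneous n R)]
    exact hPQ ((h.maps n _ (homogeneousComponent_isHomogeneous n R)).2 (hP R hRP n))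
  · exact funIso hcoord hx1 hadj fun n G hG => (mem_pointIdeal_form x hG).symm

end Pool.Agent.H7.Bir
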