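import Pool.Agent.H17BP.MapIdeal
import Pool.Agent.H36.BP.MainA
import Pool.Agent.H17EF.PNDefs

/-!
# Bir Map: composition of holomorphic maps with rational maps

* `exists_comp`: the composition of a holomorphic map `f` into `ℙ^M` with the rational map given by forms `γ i` of the same degree, not all of them
  zero on `f`, is holomorphic: near every point divide the functions `γ i (φ z)` by their common zeros.
* `pn_identity`: the identity theorem for maps into projective space.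
-/

set_option autoImplicit false

open Topology Filter Metric MvPolynomial

noncomputable section

namespace Pool.Agent.H7.Bir

open Pool.Agent.H17 (PN VanishesAt HolomorphicInto vanishesAt_mk_iff)

variable {N M : ℕ}

/-- The values of the forms `γ i` at `x`. -/
def vals (γ : Fin (N + 1) → MvPolynomial (Fin (M + 1)) ℂ) (x : Fin (M + 1) → ℂ) : Fin (N + 1) → ℂ := fun i => eval x (γ i)

theorem vals_smul {γ : Fin (N + 1) → MvPolynomial (Fin (M + 1)) ℂ} {D : ℕ} (hγ : ∀ i, (γ i).IsHomogeneous D)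
    (c : ℂ) (x : Fin (M + 1) → ℂ) : vals γ (c • x) = c ^ D • vals γ x := by
  funext i
  exact Pool.Agent.H17BP.eval_smul_form (hγ i) c x

/-- The rational map given by the forms `γ i` (arbitrary value where it is not defined). -/
def rmap (γ : Fin (N + 1) → MvPolynomial (Fin (M + 1)) ℂ) (x : PN M) : PN N :=
  open Classical in
  if h : vals γ x.rep ≠ 0 then Projectivization.mk ℂ _ h
  else Projectivization.mk ℂ (fun _ => 1) fun h => one_ne_zero (congrFun h 0)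

theorem rmap_mk {γ : Fin (N + 1) → MvPolynomial (Fin (M + 1)) ℂ} {D : ℕ} (hγ : ∀ i, (γ i).IsHomogeneous D)
    {x : Fin (M + 1) → ℂ} (hx : x ≠ 0) (h : vals γ x ≠ 0) :
    rmap γ (Projectivization.mk ℂ x hx) = Projectivization.mk ℂ (vals γ x) h := by
  obtain ⟨a, ha⟩ := Projectivization.exists_smul_eq_mk_rep ℂ x hx
  have h1 : (Projectivization.mk ℂ x hx).rep = (a : ℂ) • x := ha.symm
  have h2 : vals γ (Projectivization.mk ℂ x hx).rep = (a : ℂ) ^ D • vals γ x := by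
    rw [h1, vals_smul hγ]
  have h3 : vals γ (Projectivization.mk ℂ x hx).rep ≠ 0 := by
    rw [h2]
    exact smul_ne_zero (pow_ne_zero _ a.ne_zero) h
  unfold rmap
  rw [dif_pos h3, Projectivization.mk_eq_mk_iff']
  exact ⟨(a : ℂ) ^ D, h2.symm⟩

private theorem Map_analytic {φ : ℂ → Fin (M + 1) → ℂ} {z : ℂ} (hφ : AnalyticAt ℂ φ z)
    (γ : Fin (N + 1) → MvPolynomial (Fin (M + 1)) ℂ) : AnalyticAt ℂ (fun w => vals γ (φ w)) z := by
  rw [analyticAt_pi_iff]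
  intro i
  have h1 : AnalyticAt ℂ (fun w => MvPolynomial.aeval (φ w) (γ i)) z :=
    AnalyticAt.aeval_mvPolynomial (fun i => analyticAt_pi_iff.mp hφ i) (γ i)
  exact h1

/-- A lift of the composition near a point. -/
private theorem Map_lift {γ : Fin (N + 1) → MvPolynomial (Fin (M + 1)) ℂ} {D : ℕ} (hγ : ∀ i, (γ i).IsHomogeneous D)
    {f : ℂ → PN M} {U : Set ℂ} (hUc : IsPreconnected U) (hf : HolomorphicInto f U) {z₀ : ℂ} (hz₀ : z₀ ∈ U)
    {i₀ : Fin (N + 1)} (h : ¬ VanishesAt (γ i₀) (f z₀)) {z : ℂ} (hz : z ∈ U) :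
    ∃ ψ : ℂ → Fin (N + 1) → ℂ, AnalyticAt ℂ ψ z ∧ ψ z ≠ 0 ∧
      (∀ᶠ w in 𝓝[≠] z, ∃ h : ψ w ≠ 0, rmap γ (f w) = Projectivization.mk ℂ (ψ w) h ∧ vals γ (f w).rep ≠ 0) ∧
      (vals γ (f z).rep ≠ 0 → ∃ h : ψ z ≠ 0, rmap γ (f z) = Projectivization.mk ℂ (ψ z) h) := by
  obtain ⟨φ, hφ, he⟩ := hf z hz
  have hΨ := Map_analytic hφ γ
  -- not identically zero
  have hne : ¬ ∀ᶠ w in 𝓝 z, vals γ (φ w) = 0 := by
    intro h0
    have h1 : ∀ᶠ w in 𝓝 z, ∀ P ∈ ({γ i₀} : Set (MvPolynomial (Fin (M + 1)) ℂ)), VanishesAt P (f w) := by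
      filter_upwards [h0, he] with w h2 h3 P hP
      rw [Set.mem_singleton_iff] at hP
      subst hP
      obtain ⟨h4, h5⟩ := h3
      rw [h5, vanishesAt_mk_iff (hγ i₀)]
      exact congrFun h2 i₀
    exact h (Pool.Agent.H36.BP.vanish_identity hUc hf (S := {γ i₀}) (by
      rintro P hP
      rw [Set.mem_singleton_iff] at hP
      subst hP
      exact ⟨D, hγ i₀⟩) hz h1 z₀ hz₀ _ rfl)
  obtain ⟨n, ψ, hψ, hψ0, hψe⟩ := (hΨ.exists_eventuallyEq_pow_smul_nonzero_iff).2 hne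
  have hrep : ∀ w, (∃ h : φ w ≠ 0, f w = Projectivization.mk ℂ (φ w) h) → ∃ c : ℂ, c ≠ 0 ∧ (f w).rep = c • φ w := by
    rintro w ⟨h1, h2⟩
    obtain ⟨a, ha⟩ := Projectivization.exists_smul_eq_mk_rep ℂ (φ w) h1
    exact ⟨a, a.ne_zero, by rw [h2]; exact ha.symm⟩
  have hkey : ∀ w, (∃ h : φ w ≠ 0, f w = Projectivization.mk ℂ (φ w) h) → vals γ (φ w) = (w - z) ^ n • ψ w →
      vals γ (φ w) ≠ 0 → ∃ h : ψ w ≠ 0, rmap γ (f w) = Projectivization.mk ℂ (ψ w) h := by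
    rintro w ⟨h1, h2⟩ h3 h4
    have h5 : ψ w ≠ 0 := by
      intro h6
      rw [h6, smul_zero] at h3
      exact h4 h3
    refine ⟨h5, ?_⟩
    rw [h2, rmap_mk hγ h1 h4, Projectivization.mk_eq_mk_iff']
    exact ⟨(w - z) ^ n, h3.symm⟩
  have hrepv : ∀ w, (∃ h : φ w ≠ 0, f w = Projectivization.mk ℂ (φ w) h) → (vals γ (f w).rep ≠ 0 ↔ vals γ (φ w) ≠ 0) := by
    intro w hw
    obtain ⟨c, hc, h1⟩ := hrep w hw
    rw [h1, vals_smul hγ, smul_ne_zero_iff]
    exact ⟨fun h => h.2, fun h => ⟨pow_ne_zero _ hc, h⟩⟩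
  refine ⟨ψ, hψ, hψ0, ?_, ?_⟩
  · have h1 : ∀ᶠ w in 𝓝[≠] z, w ≠ z := self_mem_nhdsWithin
    filter_upwards [h1, he.filter_mono nhdsWithin_le_nhds, hψe.filter_mono nhdsWithin_le_nhds,
      (hψ.continuousAt.eventually_ne hψ0).filter_mono nhdsWithin_le_nhds] with w h2 h3 h4 h5
    have h6 : vals γ (φ w) ≠ 0 := by
      rw [h4]
      exact smul_ne_zero (pow_ne_zero _ (sub_ne_zero.2 h2)) h5
    obtain ⟨h7, h8⟩ := hkey w h3 h4 h6
    exact ⟨h7, h8, (hrepv w h3).2 h6⟩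
  · intro h1
    have h2 := he.self_of_nhds
    exact hkey z h2 hψe.self_of_nhds ((hrepv z h2).1 h1)

theorem exists_comp {γ : Fin (N + 1) → MvPolynomial (Fin (M + 1)) ℂ} {D : ℕ} (hγ : ∀ i, (γ i).IsHomogeneous D)
    {f : ℂ → PN M} {U : Set ℂ} (hUo : IsOpen U) (hUc : IsPreconnected U) (hf : HolomorphicInto f U) {z₀ : ℂ} (hz₀ : z₀ ∈ U)
    {i₀ : Fin (N + 1)} (h : ¬ VanishesAt (γ i₀) (f z₀)) :
    ∃ g : ℂ → PN N, HolomorphicInto g U ∧ (∀ z ∈ U, vals γ (f z).rep ≠ 0 → g z = rmap γ (f z)) ∧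
      ∀ z ∈ U, ∀ᶠ w in 𝓝[≠] z, vals γ (f w).rep ≠ 0 ∧ g w = rmap γ (f w) := by
  classical
  choose ψ hψ hψ0 hψ1 hψ2 using fun z (hz : z ∈ U) => Map_lift hγ hUc hf hz₀ h hz
  let g : ℂ → PN N := fun z => if hz : z ∈ U then Projectivization.mk ℂ (ψ z hz z) (hψ0 z hz) else rmap γ (f z)
  have hg : ∀ z ∈ U, vals γ (f z).rep ≠ 0 → g z = rmap γ (f z) := by
    intro z hz h1
    obtain ⟨h2, h3⟩ := hψ2 z hz h1
    simp only [g, dif_pos hz]
    exact h3.symm
  refine ⟨g, ?_, hg, ?_⟩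
  · intro z hz
    refine ⟨ψ z hz, hψ z hz, ?_⟩
    have h1 : ∀ᶠ w in 𝓝[≠] z, ∃ h : ψ z hz w ≠ 0, g w = Projectivization.mk ℂ (ψ z hz w) h := by
      filter_upwards [hψ1 z hz, mem_nhdsWithin_of_mem_nhds (hUo.mem_nhds hz)] with w h2 h3
      obtain ⟨h4, h5, h6⟩ := h2
      exact ⟨h4, by rw [hg w h3 h6, h5]⟩
    have h2 : ∃ h : ψ z hz z ≠ 0, g z = Projectivization.mk ℂ (ψ z hz z) h := ⟨hψ0 z hz, by simp only [g, dif_pos hz]⟩
    rw [eventually_nhdsWithin_iff] at h1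
    filter_upwards [h1] with w h3
    by_cases hw : w = z
    · rw [hw]
      exact h2
    · exact h3 hw
  · intro z hz
    filter_upwards [hψ1 z hz, mem_nhdsWithin_of_mem_nhds (hUo.mem_nhds hz)] with w h2 h3
    obtain ⟨h4, h5, h6⟩ := h2
    exact ⟨h6, hg w h3 h6⟩

/-- The identity theorem for maps into projective space. -/
theorem pn_identity {f g : ℂ → PN N} {U : Set ℂ} (hUc : IsPreconnected U) (hf : HolomorphicInto f U) (hg : HolomorphicInto g U)
    {z₀ : ℂ} (hz₀ : z₀ ∈ U) (h : ∀ᶠ z in 𝓝 z₀, f z = g z) : ∀ z ∈ U, f z = g z := by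
  set A : Set ℂ := {z | ∀ᶠ w in 𝓝 z, f w = g w} with hA
  have hAo : IsOpen A := by
    rw [isOpen_iff_mem_nhds]
    intro z hz
    exact hz.eventually_nhds
  have hcl : closure A ∩ U ⊆ A := by
    rintro z ⟨hz1, hz2⟩
    obtain ⟨φ, hφ, he⟩ := hf z hz2
    obtain ⟨χ, hχ, he'⟩ := hg z hz2
    obtain ⟨r, hr, hr1⟩ := Metric.eventually_nhds_iff_ball.mp
      ((hφ.eventually_analyticAt.and hχ.eventually_analyticAt).and (he.and he'))
    obtain ⟨z', hz'1, hz'2⟩ := mem_closure_iff_nhds.mp hz1 (ball z r) (ball_mem_nhds z hr)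
    have hz'A : ∀ᶠ w in 𝓝 z', f w = g w := hz'2
    have hprop : ∀ i j, ∀ w ∈ ball z r, φ w i * χ w j - φ w j * χ w i = 0 := by
      intro i j
      have han : AnalyticOnNhd ℂ (fun w => φ w i * χ w j - φ w j * χ w i) (ball z r) := by
        intro w hw
        have h1 := analyticAt_pi_iff.mp (hr1 w hw).1.1
        have h2 := analyticAt_pi_iff.mp (hr1 w hw).1.2
        exact ((h1 i).mul (h2 j)).sub ((h1 j).mul (h2 i))
      have h0 : (fun w => φ w i * χ w j - φ w j * χ w i) =ᶠ[𝓝 z'] 0 := by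
        filter_upwards [hz'A, isOpen_ball.mem_nhds hz'1] with w hw1 hw2
        obtain ⟨⟨h1, h2⟩, h3, h4⟩ := (hr1 w hw2).2
        rw [h2, h4, Projectivization.mk_eq_mk_iff'] at hw1
        obtain ⟨a, ha⟩ := hw1
        simp only [← ha, Pi.smul_apply, smul_eq_mul, Pi.zero_apply]
        ring
      exact han.eqOn_zero_of_preconnected_of_eventuallyEq_zero (convex_ball z r).isPreconnected hz'1 h0
    show ∀ᶠ w in 𝓝 z, f w = g w
    filter_upwards [ball_mem_nhds z hr] with w hw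
    obtain ⟨⟨h1, h2⟩, h3, h4⟩ := (hr1 w hw).2
    rw [h2, h4, Projectivization.mk_eq_mk_iff']
    obtain ⟨j, hj⟩ : ∃ j, χ w j ≠ 0 := by
      by_contra hcon
      push Not at hcon
      exact h3 (funext hcon)
    refine ⟨φ w j / χ w j, ?_⟩
    funext i
    have h5 := hprop i j w hw
    simp only [Pi.smul_apply, smul_eq_mul]
    field_simp
    linear_combination -h5
  have hAU : U ⊆ A := hUc.subset_of_closure_inter_subset hAo ⟨z₀, hz₀, h⟩ hcl
  intro z hz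
  have h1 : ∀ᶠ w in 𝓝 z, f w = g w := hAU hz
  exact h1.self_of_nhds

end Pool.Agent.H7.Bir
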