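import Pool.Agent.H7.Bir.Iso
import Pool.Agent.H7.Bir.Map
import Pool.Agent.H7.Bir.Alg
import Pool.Agent.H17EF.Closed

/-!
# Bir Main: the properties of the Green–Griffiths–Lang conjecture are birationally invariant

`bir_four`: let `P` and `P'` be homogeneous prime ideals whose function fields are isomorphic over `ℂ`.  If the variety of `P` has the properties of
the conjecture (with an exceptional set `Ξ`), then so has the variety of `P'`.
-/

set_option autoImplicit false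

open Topology Filter MvPolynomial

noncomputable section

namespace Pool.Agent.H7.Bir

open Pool.Agent.H17 (PN VanishesAt HolomorphicInto puncturedDisc vanishesAt_mk_iff ZariskiClosedIn)
open Pool.Agent.H17GT (coordFun)
open Pool.Agent.H17LG.Variety (FunField IsLogGeneralType)
open Pool.Agent.H62.FC (Homog)
open Pool.Agent.H17R (coordFun_ne_zero_iff)
open Pool.Agent.H17EF (projVar)

variable {N M : ℕ}

/-- The properties of the conjecture for the closed subvariety of `ℙ^N` given by `P`, with the exceptional set `Ξ`. -/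
structure GGL (P : Ideal (MvPolynomial (Fin (N + 1)) ℂ)) [P.IsPrime] (Ξ : Set (PN N)) : Prop where
  closed : ZariskiClosedIn (projVar P) Ξ
  proper : Ξ ≠ projVar P
  generalType : ∀ w, 1 ≤ w → (∃ z : Fin w → FunField P, IsTranscendenceBasis ℂ z) →
    IsLogGeneralType (K := FunField P) (k := w) fun _ => False
  picard : ∀ f : ℂ → PN N, HolomorphicInto f puncturedDisc → (∀ z ∈ puncturedDisc, f z ∈ projVar P) →
    (∃ z ∈ puncturedDisc, f z ∉ Ξ) →
    ∃ g : ℂ → PN N, HolomorphicInto g (Metric.ball 0 1) ∧ ∀ z ∈ puncturedDisc, g z = f z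
  brody : ∀ f : ℂ → PN N, HolomorphicInto f Set.univ → (∀ z, f z ∈ projVar P) → (∃ z w, f z ≠ f w) → ∀ z, f z ∈ Ξ
  strongly : ∀ (Q : Ideal (MvPolynomial (Fin (N + 1)) ℂ)) [Q.IsPrime], Homog Q → P ≤ Q → ¬ projVar Q ⊆ Ξ →
    ∀ w, 1 ≤ w → (∃ z : Fin w → FunField Q, IsTranscendenceBasis ℂ z) →
      IsLogGeneralType (K := FunField Q) (k := w) fun _ => False

theorem punctured_open : IsOpen puncturedDisc := Metric.isOpen_ball.sdiff isClosed_singleton

/-- The value of a composed form. -/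
theorem eval_comp (γ : Fin (N + 1) → MvPolynomial (Fin (M + 1)) ℂ) (R : MvPolynomial (Fin (N + 1)) ℂ) (x : Fin (M + 1) → ℂ) :
    eval x (aeval γ R) = eval (vals γ x) R := by
  have h1 := aeval_comp (K := ℂ) x γ R
  exact h1

/-- A form vanishes at the image of a point if and only if its composition with the rational map vanishes. -/
theorem vanishesAt_rmap {γ : Fin (N + 1) → MvPolynomial (Fin (M + 1)) ℂ} {y : PN M} (hy : vals γ y.rep ≠ 0) {n : ℕ}
    {R : MvPolynomial (Fin (N + 1)) ℂ} (hR : R.IsHomogeneous n) : VanishesAt R (rmap γ y) ↔ VanishesAt (aeval γ R) y := by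
  unfold rmap
  rw [dif_pos hy, vanishesAt_mk_iff hR]
  unfold VanishesAt
  rw [eval_comp]

section

variable {P : Ideal (MvPolynomial (Fin (N + 1)) ℂ)} {P' : Ideal (MvPolynomial (Fin (M + 1)) ℂ)} {D D' : ℕ}
  {α : Fin (M + 1) → MvPolynomial (Fin (N + 1)) ℂ} {γ : Fin (N + 1) → MvPolynomial (Fin (M + 1)) ℂ} {j : Fin (N + 1)}
  {j' : Fin (M + 1)}

/-- The form whose zeros are removed. -/
def badForm (α : Fin (M + 1) → MvPolynomial (Fin (N + 1)) ℂ) (γ : Fin (N + 1) → MvPolynomial (Fin (M + 1)) ℂ) (j : Fin (N + 1))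
    (j' : Fin (M + 1)) : MvPolynomial (Fin (M + 1)) ℂ := X j' * (γ j * aeval γ (α j'))

theorem not_bad_iff {y : PN M} : ¬ VanishesAt (badForm α γ j j') y ↔
    ¬ VanishesAt (X j') y ∧ ¬ VanishesAt (γ j) y ∧ ¬ VanishesAt (aeval γ (α j')) y := by
  unfold badForm VanishesAt
  rw [map_mul, map_mul, mul_eq_zero, mul_eq_zero, not_or, not_or]

theorem IsBir.bad_homog (h : IsBir P P' D D' α γ j j') : (badForm α γ j j').IsHomogeneous (1 + (D' + D' * D)) :=
  (isHomogeneous_X ℂ j').mul ((h.homγ j).mul ((h.homα j').aeval γ h.homγ))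

/-- The image of a point. -/
theorem IsBir.mem (h : IsBir P P' D D' α γ j j') {y : PN M} (hy : y ∈ projVar P') (hv : vals γ y.rep ≠ 0) : rmap γ y ∈ projVar P := by
  intro R hR n hRn
  rw [vanishesAt_rmap hv hRn]
  exact hy _ ((h.maps n R hRn).2 hR) _ (hRn.aeval γ h.homγ)

/-- The two rational maps are inverse to each other. -/
theorem IsBir.comp_eq (h : IsBir P P' D D' α γ j j') {y : PN M} (hy : y ∈ projVar P') (hb : ¬ VanishesAt (badForm α γ j j') y) :
    vals γ y.rep ≠ 0 ∧ vals α (rmap γ y).rep ≠ 0 ∧ rmap α (rmap γ y) = y := by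
  obtain ⟨h1, h2, h3⟩ := not_bad_iff.1 hb
  have hv : vals γ y.rep ≠ 0 := fun h0 => h2 (congrFun h0 j)
  have hc : vals α (vals γ y.rep) ≠ 0 := by
    intro h0
    apply h3
    unfold VanishesAt
    rw [eval_comp]
    exact congrFun h0 j'
  have hα : vals α (rmap γ y).rep ≠ 0 := by
    intro h0
    have h4 : VanishesAt (α j') (rmap γ y) := congrFun h0 j'
    rw [vanishesAt_rmap hv (h.homα j')] at h4
    exact h3 h4
  refine ⟨hv, hα, ?_⟩
  have h5 : rmap γ y = Projectivization.mk ℂ (vals γ y.rep) hv := by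
    unfold rmap
    rw [dif_pos hv]
  rw [h5, rmap_mk h.homα hv hc]
  conv_rhs => rw [← y.mk_rep]
  rw [Projectivization.mk_eq_mk_iff']
  have h6 : eval y.rep (aeval γ (α j')) ≠ 0 := h3
  have h7 : eval y.rep (X j') ≠ 0 := h1
  rw [eval_X] at h7
  refine ⟨eval y.rep (aeval γ (α j')) / y.rep j', ?_⟩
  funext i
  have h8 := hy _ (h.inv i) (D' * D + 1) ((((h.homα i).aeval γ h.homγ).mul (isHomogeneous_X ℂ j')).sub
    (((h.homα j').aeval γ h.homγ).mul (isHomogeneous_X ℂ i)))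
  unfold VanishesAt at h8
  rw [map_sub, map_mul, map_mul, eval_X, eval_X] at h8
  change eval y.rep (aeval γ (α j')) / y.rep j' * y.rep i = eval (vals γ y.rep) (α i)
  rw [← eval_comp]
  field_simp
  linear_combination -h8

/-- Holomorphic maps to the variety of `P'`: the composition with the rational map. -/
theorem IsBir.lift (h : IsBir P P' D D' α γ j j') {f : ℂ → PN M} {U : Set ℂ} (hUo : IsOpen U) (hUc : IsPreconnected U)
    (hf : HolomorphicInto f U) (hfX : ∀ z ∈ U, f z ∈ projVar P') {z₀ : ℂ} (hz₀ : z₀ ∈ U)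
    (hb : ¬ VanishesAt (badForm α γ j j') (f z₀)) :
    ∃ g : ℂ → PN N, HolomorphicInto g U ∧ (∀ z ∈ U, g z ∈ projVar P) ∧ g z₀ = rmap γ (f z₀) ∧
      ∀ᶠ z in 𝓝 z₀, vals α (g z).rep ≠ 0 ∧ rmap α (g z) = f z := by
  obtain ⟨h1, h2, h3⟩ := not_bad_iff.1 hb
  obtain ⟨g, hg, hg1, -⟩ := exists_comp h.homγ hUo hUc hf hz₀ h2
  have hnear : ∀ᶠ z in 𝓝 z₀, z ∈ U ∧ ¬ VanishesAt (badForm α γ j j') (f z) := by
    obtain ⟨φ, hφ, he⟩ := hf z₀ hz₀
    have hcont : ContinuousAt (fun z => eval (φ z) (badForm α γ j j')) z₀ := by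
      have h4 : AnalyticAt ℂ (fun w => MvPolynomial.aeval (φ w) (badForm α γ j j')) z₀ :=
        AnalyticAt.aeval_mvPolynomial (fun i => analyticAt_pi_iff.mp hφ i) _
      exact h4.continuousAt
    have h0 : eval (φ z₀) (badForm α γ j j') ≠ 0 := by
      obtain ⟨h4, h5⟩ := he.self_of_nhds
      rw [h5, vanishesAt_mk_iff h.bad_homog] at hb
      exact hb
    filter_upwards [hUo.mem_nhds hz₀, he, hcont.eventually_ne h0] with z hz h4 h5
    refine ⟨hz, ?_⟩
    obtain ⟨h6, h7⟩ := h4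
    rw [h7, vanishesAt_mk_iff h.bad_homog]
    exact h5
  have hnear2 : ∀ᶠ z in 𝓝 z₀, g z = rmap γ (f z) ∧ vals γ (f z).rep ≠ 0 ∧ vals α (rmap γ (f z)).rep ≠ 0 ∧
      rmap α (rmap γ (f z)) = f z := by
    filter_upwards [hnear] with z hz
    obtain ⟨h4, h5, h6⟩ := h.comp_eq (hfX z hz.1) hz.2
    exact ⟨hg1 z hz.1 h4, h4, h5, h6⟩
  refine ⟨g, hg, ?_, hnear2.self_of_nhds.1, ?_⟩
  · have h4 := Pool.Agent.H36.BP.vanish_identity hUc hg (S := {R | R ∈ P ∧ ∃ n, R.IsHomogeneous n}) (fun R hR => hR.2) hz₀ (by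
      filter_upwards [hnear, hnear2] with z hz hz2 R hR
      obtain ⟨hRP, n, hRn⟩ := hR
      rw [hz2.1]
      exact h.mem (hfX z hz.1) hz2.2.1 R hRP n hRn)
    intro z hz R hR n hRn
    exact h4 z hz R ⟨hR, n, hRn⟩
  · filter_upwards [hnear2] with z hz
    rw [hz.1]
    exact ⟨hz.2.2.1, hz.2.2.2⟩

end

/-- **Birational invariance.** -/
theorem bir_four {P : Ideal (MvPolynomial (Fin (N + 1)) ℂ)} [P.IsPrime] (hP : Homog P)
    (hdim : ∃ (w : ℕ) (z : Fin (w + 1) → FunField P), IsTranscendenceBasis ℂ z)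
    {P' : Ideal (MvPolynomial (Fin (M + 1)) ℂ)} [hPp' : P'.IsPrime] (hP' : Homog P') (e : FunField P' ≃ₐ[ℂ] FunField P)
    {Ξ : Set (PN N)} (hΞ : GGL P Ξ) : ∃ Ξ' : Set (PN M), GGL P' Ξ' := by
  obtain ⟨w, z, hz⟩ := hdim
  obtain ⟨i, hi⟩ := Pool.Agent.H92.GT.Proj.exists_coordFun_ne_zero P z hz
  obtain ⟨i', hi'⟩ := Pool.Agent.H92.GT.Proj.exists_coordFun_ne_zero P' (e.symm ∘ z) (e.symm.isTranscendenceBasis hz)
  obtain ⟨D, D', α, γ, h⟩ := exists_isBir e hi hi'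
  obtain ⟨S, hS, hSΞ⟩ := hΞ.closed
  set b : MvPolynomial (Fin (M + 1)) ℂ := badForm α γ i i' with hb
  have hbP : b ∉ P' := by
    intro hcon
    rcases hPp'.mem_or_mem hcon with h1 | h1
    · exact h.hj' h1
    · rcases hPp'.mem_or_mem h1 with h2 | h2
      · exact h.hγ h2
      · exact h.hα h2
  set S' : Set (MvPolynomial (Fin (M + 1)) ℂ) := {R | ∃ T ∈ S, R = b * aeval γ T} with hS'
  have hS'hom : ∀ R ∈ S', ∃ n, R.IsHomogeneous n := by
    rintro R ⟨T, hT, rfl⟩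
    obtain ⟨n, hn⟩ := hS T hT
    exact ⟨_, h.bad_homog.mul (hn.aeval γ h.homγ)⟩
  set Ξ' : Set (PN M) := {y | y ∈ projVar P' ∧ ∀ R ∈ S', VanishesAt R y} with hΞ'
  -- points outside of the exceptional set
  have key : ∀ y ∈ projVar P', y ∉ Ξ' → ¬ VanishesAt b y ∧ rmap γ y ∉ Ξ := by
    intro y hy hyΞ
    obtain ⟨R, ⟨T, hT, rfl⟩, hR⟩ : ∃ R ∈ S', ¬ VanishesAt R y := by
      by_contra hcon
      push Not at hcon
      exact hyΞ ⟨hy, hcon⟩
    unfold VanishesAt at hR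
    rw [map_mul, mul_eq_zero, not_or] at hR
    refine ⟨hR.1, fun hmem => hR.2 ?_⟩
    obtain ⟨n, hn⟩ := hS T hT
    obtain ⟨hv, -, -⟩ := h.comp_eq hy hR.1
    rw [hSΞ] at hmem
    exact (vanishesAt_rmap hv hn).1 (hmem.2 T hT)
  have hcoordP' : ∃ i, (X i : MvPolynomial (Fin (M + 1)) ℂ) ∉ P' := ⟨i', h.hj'⟩
  refine ⟨Ξ', ⟨S', hS'hom, rfl⟩, ?_, ?_, ?_, ?_, ?_⟩
  · -- proper
    intro heq
    obtain ⟨x, hx, hxΞ⟩ : ∃ x ∈ projVar P, x ∉ Ξ := by
      by_contra hcon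
      push Not at hcon
      apply hΞ.proper
      apply Set.Subset.antisymm
      · rw [hSΞ]
        exact fun x hx => hx.1
      · exact hcon
    obtain ⟨T, hT, hTx⟩ : ∃ T ∈ S, ¬ VanishesAt T x := by
      by_contra hcon
      push Not at hcon
      apply hxΞ
      rw [hSΞ]
      exact ⟨hx, hcon⟩
    obtain ⟨n, hn⟩ := hS T hT
    have hTP : T ∉ P := fun h1 => hTx (hx T h1 n hn)
    have h1 : b * aeval γ T ∉ P' := by
      intro hcon
      rcases hPp'.mem_or_mem hcon with h2 | h2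
      · exact hbP h2
      · exact hTP ((h.maps n T hn).1 h2)
    obtain ⟨y, hy, hyb⟩ := Pool.Agent.H17EF.exists_point hP' hcoordP' h1 (h.bad_homog.mul (hn.aeval γ h.homγ))
    rw [← heq] at hy
    exact hyb (hy.2 _ ⟨T, hT, rfl⟩)
  · -- general type
    intro w hw hzw
    obtain ⟨z', hz'⟩ := hzw
    exact isGT_of_equiv e.symm (hΞ.generalType w hw ⟨e ∘ z', e.isTranscendenceBasis hz'⟩)
  · -- Picard
    rintro f hf hfX ⟨z₀, hz₀, hfz₀⟩
    obtain ⟨h1, h2⟩ := key _ (hfX z₀ hz₀) hfz₀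
    obtain ⟨g, hg, hgX, hg0, hgn⟩ := h.lift punctured_open Pool.Agent.H36.BP.preconnected_puncturedDisc hf hfX hz₀ h1
    obtain ⟨G, hG, hGg⟩ := hΞ.picard g hg hgX ⟨z₀, hz₀, by rw [hg0]; exact h2⟩
    have hz₀' : z₀ ∈ Metric.ball (0 : ℂ) 1 := hz₀.1
    obtain ⟨k, hk⟩ : ∃ k, ¬ VanishesAt (α k) (G z₀) := by
      by_contra hcon
      push Not at hcon
      rw [hGg z₀ hz₀] at hcon
      exact hgn.self_of_nhds.1 (funext hcon)
    obtain ⟨F, hF, hF1, -⟩ := exists_comp h.homα Metric.isOpen_ball (convex_ball (0 : ℂ) 1).isPreconnected hG hz₀' hk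
    refine ⟨F, hF, ?_⟩
    refine pn_identity Pool.Agent.H36.BP.preconnected_puncturedDisc (fun z hz => hF z hz.1) hf hz₀ ?_
    filter_upwards [hgn, punctured_open.mem_nhds hz₀] with z h3 h4
    rw [hF1 z h4.1 (by rw [hGg z h4]; exact h3.1), hGg z h4, h3.2]
  · -- Brody
    intro f hf hfX hne z₀
    by_contra hfz₀
    obtain ⟨h1, h2⟩ := key _ (hfX z₀) hfz₀
    obtain ⟨g, hg, hgX, hg0, hgn⟩ := h.lift isOpen_univ isPreconnected_univ hf (fun z _ => hfX z) (Set.mem_univ z₀) h1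
    have hconst : ∀ z w, g z = g w := by
      by_contra hcon
      push Not at hcon
      have h3 := hΞ.brody g hg (fun z => hgX z (Set.mem_univ z)) hcon z₀
      rw [hg0] at h3
      exact h2 h3
    have h3 : ∀ᶠ z in 𝓝 z₀, f z = (fun _ => f z₀) z := by
      filter_upwards [hgn] with z h4
      rw [← h4.2, hconst z z₀, hgn.self_of_nhds.2]
    have hc : HolomorphicInto (fun _ : ℂ => f z₀) Set.univ := by
      intro z _
      exact ⟨fun _ => (f z₀).rep, analyticAt_const, Eventually.of_forall fun _ => ⟨(f z₀).rep_nonzero, (f z₀).mk_rep.symm⟩⟩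
    have h4 := pn_identity isPreconnected_univ hf hc (Set.mem_univ z₀) h3
    obtain ⟨z, w, hzw⟩ := hne
    exact hzw ((h4 z (Set.mem_univ z)).trans (h4 w (Set.mem_univ w)).symm)
  · -- strongly
    intro Q' _ hQ' hPQ hsub w hw hzw
    obtain ⟨y, hyQ, hyΞ⟩ := Set.not_subset.1 hsub
    have hyP : y ∈ projVar P' := fun R hR n hRn => hyQ R (hPQ hR) n hRn
    obtain ⟨h1, h2⟩ := key y hyP hyΞ
    obtain ⟨h3, h4, h5⟩ := not_bad_iff.1 h1
    obtain ⟨hv, -, -⟩ := h.comp_eq hyP h1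
    obtain ⟨Q, hQp, hQ, hPQ', ⟨e'⟩, hmem⟩ := exists_sub hP h hPQ (fun hc => h3 (hyQ _ hc _ (isHomogeneous_X ℂ i')))
      (fun hc => h4 (hyQ _ hc _ (h.homγ i))) (fun hc => h5 (hyQ _ hc _ ((h.homα i').aeval γ h.homγ)))
    obtain ⟨z', hz'⟩ := hzw
    refine isGT_of_equiv e' (hΞ.strongly Q hQ hPQ' ?_ w hw ⟨e'.symm ∘ z', e'.symm.isTranscendenceBasis hz'⟩)
    intro hcon
    apply h2
    apply hcon
    intro R hR n hRn
    rw [vanishesAt_rmap hv hRn]
    exact hyQ _ ((hmem n R hRn).1 hR) _ (hRn.aeval γ h.homγ)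

end Pool.Agent.H7.Bir
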