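import Pool.Agent.H7.Bir.Main
import Pool.Agent.H62.SA.Defs
import Pool.Agent.H62.FC.Dense

/-!
# Bir Open: the four properties for Zariski open subsets of projective varieties

`open_four`: if the closed subvariety `X` of `ℙ^N` has the properties of the conjecture with the exceptional set `Ξ`, then every nonempty Zariski
open subset `U` of `X` has them with the exceptional set `Ξ ∩ U`.  `bir_open_four`: if `X` has the properties, then every quasi-projective variety
which is birational to `X` has them.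
-/

set_option autoImplicit false

open Topology Filter MvPolynomial

noncomputable section

namespace Pool.Agent.H7.Bir

open Pool.Agent.H17 (PN VanishesAt HolomorphicInto puncturedDisc vanishesAt_mk_iff ZariskiClosedIn)
open Pool.Agent.H17GT (coordFun)
open Pool.Agent.H17LG.Variety (FunField IsLogGeneralType)
open Pool.Agent.H62.FC (Homog)
open Pool.Agent.H62.SA (locVar OnBd)
open Pool.Agent.H17EF (projVar)

variable {N M : ℕ}

/-- The properties of the conjecture for the quasi-projective variety `U = locVar P G`, with the exceptional set `Ξ`. -/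
structure GGLOpen (P : Ideal (MvPolynomial (Fin (N + 1)) ℂ)) [P.IsPrime] {s : ℕ} (G : Fin s → MvPolynomial (Fin (N + 1)) ℂ)
    (Ξ : Set (PN N)) : Prop where
  closed : ZariskiClosedIn (locVar P G) Ξ
  proper : Ξ ≠ locVar P G
  logGeneralType : ∀ w, 1 ≤ w → (∃ z : Fin w → FunField P, IsTranscendenceBasis ℂ z) → IsLogGeneralType (OnBd P G (k := w))
  picard : ∀ f : ℂ → PN N, HolomorphicInto f puncturedDisc → (∀ z ∈ puncturedDisc, f z ∈ locVar P G) →
    (∃ z ∈ puncturedDisc, f z ∉ Ξ) →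
    ∃ g : ℂ → PN N, HolomorphicInto g (Metric.ball 0 1) ∧ ∀ z ∈ puncturedDisc, g z = f z
  brody : ∀ f : ℂ → PN N, HolomorphicInto f Set.univ → (∀ z, f z ∈ locVar P G) → (∃ z w, f z ≠ f w) → ∀ z, f z ∈ Ξ
  strongly : ∀ (Q : Ideal (MvPolynomial (Fin (N + 1)) ℂ)) [Q.IsPrime], Homog Q → P ≤ Q → ¬ locVar Q G ⊆ Ξ →
    ∀ w, 1 ≤ w → (∃ z : Fin w → FunField Q, IsTranscendenceBasis ℂ z) → IsLogGeneralType (OnBd Q G (k := w))

/-- A variety of general type is of log general type with respect to every boundary. -/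
theorem logGT_of_gt {K : Type} [Field K] [Algebra ℂ K] {k : ℕ}
    (h : IsLogGeneralType (K := K) (k := k) fun _ => False) (B : Pool.Agent.H23.Fano.PrimeDivisorOver K k → Prop) : IsLogGeneralType (K := K) (k := k) B := by
  obtain ⟨m, hm, ω, hω, r, f, hf, h1, h2⟩ := h
  refine ⟨m, hm, ω, hω, r, f, hf, fun i E => ⟨fun _ => (h1 i E).1 (fun h => h), fun _ => ?_⟩, h2⟩
  obtain ⟨g, η, hη, hg, ho⟩ := (h1 i E).1 (fun h => h)
  refine ⟨g, η, hη, hg, ?_⟩
  exact le_trans ho (add_le_add le_rfl (by exact_mod_cast Nat.zero_le m))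

theorem locVar_subset (P : Ideal (MvPolynomial (Fin (N + 1)) ℂ)) {s : ℕ} (G : Fin s → MvPolynomial (Fin (N + 1)) ℂ) :
    locVar P G ⊆ projVar P := fun _ hx => hx.1

/-- A form which vanishes on a nonempty Zariski open subset belongs to the ideal. -/
theorem mem_of_open {P : Ideal (MvPolynomial (Fin (N + 1)) ℂ)} [P.IsPrime] (hP : Homog P) {s : ℕ}
    {G : Fin s → MvPolynomial (Fin (N + 1)) ℂ} (hG : ∀ m, ∃ n, (G m).IsHomogeneous n) (hne : (locVar P G).Nonempty)
    {R : MvPolynomial (Fin (N + 1)) ℂ} {n : ℕ} (hR : R.IsHomogeneous n) (h : ∀ x ∈ locVar P G, VanishesAt R x) : R ∈ P := by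
  obtain ⟨x, hx, m, hm⟩ := hne
  obtain ⟨d, hd⟩ := hG m
  have hGm : G m ∉ P := fun h1 => hm (hx _ h1 d hd)
  have hX : ∃ i, X i ∉ P := by
    by_contra hcon
    push Not at hcon
    have h1 : ∀ i, x.rep i = 0 := by
      intro i
      have h2 := hx _ (hcon i) 1 (isHomogeneous_X ℂ i)
      unfold VanishesAt at h2
      rwa [eval_X] at h2
    exact x.rep_nonzero (funext h1)
  have h1 : R * G m ∈ P := by
    refine Pool.Agent.H62.FC.mem_of_vanishes hP (S := ∅) (fun i hi => absurd hi (Finset.notMem_empty i)) hX (hR.mul hd) ?_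
    intro y hy
    unfold VanishesAt
    rw [map_mul]
    by_cases h2 : VanishesAt (G m) y
    · rw [show eval y.rep (G m) = 0 from h2, mul_zero]
    · rw [show eval y.rep R = 0 from h y ⟨hy.1, m, h2⟩, zero_mul]
  exact ((inferInstance : P.IsPrime).mem_or_mem h1).resolve_right hGm

/-- **The properties hold for all nonempty Zariski open subsets.** -/
theorem open_four {P : Ideal (MvPolynomial (Fin (N + 1)) ℂ)} [P.IsPrime] (hP : Homog P) {s : ℕ}
    {G : Fin s → MvPolynomial (Fin (N + 1)) ℂ} (hG : ∀ m, ∃ n, (G m).IsHomogeneous n) (hne : (locVar P G).Nonempty)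
    {Ξ : Set (PN N)} (h : GGL P Ξ) : GGLOpen P G (Ξ ∩ locVar P G) := by
  obtain ⟨S, hS, hΞ⟩ := h.closed
  refine ⟨⟨S, hS, ?_⟩, ?_, ?_, ?_, ?_, ?_⟩
  · ext x
    rw [hΞ]
    exact ⟨fun hx => ⟨hx.2, hx.1.2⟩, fun hx => ⟨⟨hx.1.1, hx.2⟩, hx.1⟩⟩
  · intro heq
    apply h.proper
    refine Set.Subset.antisymm ?_ ?_
    · rw [hΞ]
      exact fun x hx => hx.1
    · intro x hx
      rw [hΞ]
      refine ⟨hx, fun R hR => ?_⟩
      obtain ⟨n, hn⟩ := hS R hR
      refine hx R (mem_of_open hP hG hne hn fun y hy => ?_) n hn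
      have h1 : y ∈ Ξ := by
        rw [← heq] at hy
        exact hy.1
      rw [hΞ] at h1
      exact h1.2 R hR
  · exact fun w hw hz => logGT_of_gt (h.generalType w hw hz) _
  · intro f hf hfU hfΞ
    refine h.picard f hf (fun z hz => (hfU z hz).1) ?_
    obtain ⟨z, hz, hzΞ⟩ := hfΞ
    exact ⟨z, hz, fun h1 => hzΞ ⟨h1, hfU z hz⟩⟩
  · exact fun f hf hfU hfn z => ⟨h.brody f hf (fun z => (hfU z).1) hfn z, hfU z⟩
  · intro Q _ hQ hPQ hsub w hw hz
    refine logGT_of_gt (h.strongly Q hQ hPQ ?_ w hw hz) _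
    intro h1
    exact hsub fun x hx => ⟨h1 hx.1, fun R hR n hn => hx.1 R (hPQ hR) n hn, hx.2⟩

/-- **The properties are inherited by all quasi-projective varieties in the birational class.** -/
theorem bir_open_four {P : Ideal (MvPolynomial (Fin (N + 1)) ℂ)} [P.IsPrime] (hP : Homog P)
    (hdim : ∃ (k : ℕ) (z : Fin (k + 1) → FunField P), IsTranscendenceBasis ℂ z)
    {P' : Ideal (MvPolynomial (Fin (M + 1)) ℂ)} [P'.IsPrime] (hP' : Homog P') (e : FunField P' ≃ₐ[ℂ] FunField P)
    {s : ℕ} {G : Fin s → MvPolynomial (Fin (M + 1)) ℂ} (hG : ∀ m, ∃ n, (G m).IsHomogeneous n) (hne : (locVar P' G).Nonempty)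
    {Ξ : Set (PN N)} (h : GGL P Ξ) : ∃ Ξ' : Set (PN M), GGLOpen P' G Ξ' := by
  obtain ⟨Ξ', h'⟩ := bir_four hP hdim hP' e h
  exact ⟨_, open_four hP' hG hne h'⟩

end Pool.Agent.H7.Bir
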