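import Pool.Agent.H17LG.Variety

/-!
# Bir Iso: varieties of general type and isomorphisms of function fields

The property `IsLogGeneralType` (with empty boundary) depends only on the function field up to `ℂ`-isomorphism.
-/

set_option autoImplicit false

open Pool.Agent.H23.Fano (Form Diff ExtPow regularForms PrimeDivisorOver)
open Pool.Agent.H17LG.Variety (PoleAtMost IsLogGeneralType)

noncomputable section

namespace Pool.Agent.H7.Bir

variable {K L : Type} [Field K] [Algebra ℂ K] [Field L] [Algebra ℂ L]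

/-- The map of rational forms induced by an isomorphism of fields. -/
theorem exists_formMap (e : K ≃ₐ[ℂ] L) (k : ℕ) : ∃ Φ : Form K k →+ Form L k, (∀ c ω, Φ (c • ω) = e c • Φ ω) ∧
    ∀ c a, Φ (Form.mk c a) = Form.mk (e c) fun i => e (a i) := by
  let _ : Algebra K L := e.toRingHom.toAlgebra
  have _ : IsScalarTower ℂ K L := by
    refine IsScalarTower.of_algebraMap_eq fun r => ?_
    exact (e.commutes r).symm
  let D : Ω[K⁄ℂ] →ₗ[K] Ω[L⁄ℂ] := KaehlerDifferential.map ℂ ℂ K L
  let _ : Module K (⋀[L]^k Ω[L⁄ℂ]) := Module.compHom _ e.toRingHom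
  have hD : ∀ (c : K) (x : Ω[K⁄ℂ]), D (c • x) = e c • D x := by
    intro c x
    rw [map_smul]
    exact algebra_compatible_smul L c (D x)
  have hup : ∀ [DecidableEq (Fin k)] (v : Fin k → Ω[K⁄ℂ]) (i : Fin k) (t : Ω[K⁄ℂ]),
      (fun j => D (Function.update v i t j)) = Function.update (fun j => D (v j)) i (D t) := by
    intro _ v i t
    funext j
    by_cases hj : j = i
    · subst hj
      simp
    · simp [Function.update_of_ne hj]
  let A : Ω[K⁄ℂ] [⋀^Fin k]→ₗ[K] (⋀[L]^k Ω[L⁄ℂ]) :=
    { toFun := fun v => exteriorPower.ιMulti L k fun i => D (v i)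
      map_update_add' := by
        intro _ v i x y
        rw [hup, hup, hup, map_add, (exteriorPower.ιMulti L k).map_update_add]
      map_update_smul' := by
        intro _ v i c x
        rw [hup, hup, hD, (exteriorPower.ιMulti L k).map_update_smul]
        rfl
      map_eq_zero_of_eq' := by
        intro v i j h hij
        exact (exteriorPower.ιMulti L k).map_eq_zero_of_eq _ (by simp only [h]) hij }
  let F : (⋀[K]^k Ω[K⁄ℂ]) →ₗ[K] (⋀[L]^k Ω[L⁄ℂ]) := exteriorPower.alternatingMapLinearEquiv A
  refine ⟨F.toAddMonoidHom, fun c ω => ?_, fun c a => ?_⟩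
  · exact F.map_smul c ω
  · have h1 : F (c • exteriorPower.ιMulti K k fun i => KaehlerDifferential.D ℂ K (a i)) =
        e c • exteriorPower.ιMulti L k fun i => D (KaehlerDifferential.D ℂ K (a i)) := by
      rw [F.map_smul]
      change e c • F _ = _
      congr 1
      exact exteriorPower.alternatingMapLinearEquiv_apply_ιMulti A _
    have h2 : ∀ x : K, D (KaehlerDifferential.D ℂ K x) = KaehlerDifferential.D ℂ L (e x) :=
      fun x => KaehlerDifferential.map_D ℂ ℂ K L x
    simp only [h2] at h1
    exact h1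

/-- Every rational form is a sum of forms `c da₁ ∧ ⋯ ∧ da_k`. -/
theorem closure_mk (k : ℕ) : AddSubgroup.closure {ω : Form K k | ∃ (c : K) (a : Fin k → K), ω = Form.mk c a} = ⊤ := by
  rw [eq_top_iff]
  rintro (ω : ⋀[K]^k Ω[K⁄ℂ]) -
  have hs : ∀ (c : K) (η : Form K k), η ∈ AddSubgroup.closure {ω : Form K k | ∃ (c : K) (a : Fin k → K), ω = Form.mk c a} →
      c • η ∈ AddSubgroup.closure {ω : Form K k | ∃ (c : K) (a : Fin k → K), ω = Form.mk c a} := by
    intro c η hη
    induction hη using AddSubgroup.closure_induction with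
    | mem x hx =>
      obtain ⟨c', a, rfl⟩ := hx
      exact AddSubgroup.subset_closure ⟨c * c', a,
        smul_smul c c' (exteriorPower.ιMulti K k fun i => KaehlerDifferential.D ℂ K (a i))⟩
    | zero =>
      rw [smul_zero]
      exact zero_mem _
    | add x y _ _ hx hy =>
      rw [smul_add]
      exact add_mem hx hy
    | neg x _ hx =>
      rw [smul_neg]
      exact neg_mem hx
  have hω : ω ∈ Submodule.span K (exteriorPower.ιMulti K k '' {a | Set.range a ⊆ Set.range (KaehlerDifferential.D ℂ K)}) := by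
    rw [exteriorPower.ιMulti_span_of_span _ _ _ (KaehlerDifferential.span_range_derivation ℂ K)]
    trivial
  refine Submodule.span_induction (p := fun (η : ⋀[K]^k Ω[K⁄ℂ]) _ =>
    (η : Form K k) ∈ AddSubgroup.closure {ω : Form K k | ∃ (c : K) (a : Fin k → K), ω = Form.mk c a}) ?_ ?_ ?_ ?_ hω
  · rintro _ ⟨a, ha, rfl⟩
    choose b hb using fun i => ha ⟨i, rfl⟩
    refine AddSubgroup.subset_closure ⟨1, b, ?_⟩
    unfold Form.mk
    rw [one_smul]
    change exteriorPower.ιMulti K k a = exteriorPower.ιMulti K k fun i => KaehlerDifferential.D ℂ K (b i)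
    congr 1
    funext i
    exact (hb i).symm
  · exact zero_mem _
  · exact fun x y _ _ hx hy => add_mem hx hy
  · exact fun c x _ hx => hs c x hx

theorem formMap_injective (e : K ≃ₐ[ℂ] L) {k : ℕ} {Φ : Form K k →+ Form L k}
    (hΦ : ∀ c a, Φ (Form.mk c a) = Form.mk (e c) fun i => e (a i)) : Function.Injective Φ := by
  obtain ⟨Ψ, -, hΨ⟩ := exists_formMap e.symm k
  have h : ∀ ω, Ψ (Φ ω) = ω := by
    intro ω
    have hω : ω ∈ AddSubgroup.closure {ω : Form K k | ∃ (c : K) (a : Fin k → K), ω = Form.mk c a} := by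
      rw [closure_mk]
      trivial
    induction hω using AddSubgroup.closure_induction with
    | mem x hx =>
      obtain ⟨c, a, rfl⟩ := hx
      rw [hΦ, hΨ]
      simp
    | zero => simp
    | add x y _ _ hx hy => rw [map_add, map_add, hx, hy]
    | neg x _ hx => rw [map_neg, map_neg, hx]
  exact Function.LeftInverse.injective h

theorem formMap_regular (e : K ≃ₐ[ℂ] L) {k : ℕ} {Φ : Form K k →+ Form L k}
    (hΦ : ∀ c a, Φ (Form.mk c a) = Form.mk (e c) fun i => e (a i)) {A : Set K} {B : Set L}
    (hAB : ∀ x ∈ A, e x ∈ B) {η : Form K k} (hη : η ∈ regularForms k A) : Φ η ∈ regularForms k B := by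
  unfold regularForms at hη ⊢
  induction hη using AddSubgroup.closure_induction with
  | mem x hx =>
    obtain ⟨c, a, hc, ha, rfl⟩ := hx
    rw [hΦ]
    exact AddSubgroup.subset_closure ⟨e c, fun i => e (a i), hAB c hc, fun i => hAB _ (ha i), rfl⟩
  | zero =>
    rw [map_zero]
    exact zero_mem _
  | add x y _ _ hx hy =>
    rw [map_add]
    exact add_mem hx hy
  | neg x _ hx =>
    rw [map_neg]
    exact neg_mem hx

/-- The prime divisor of `K` given by a prime divisor of `L`. -/
def pull (e : K ≃ₐ[ℂ] L) {k : ℕ} (E : PrimeDivisorOver L k) : PrimeDivisorOver K k where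
  ord := E.ord.comap (e : K →+* L)
  ord_const c := by
    change 0 ≤ E.ord (e (algebraMap ℂ K c))
    rw [e.commutes]
    exact E.ord_const c
  exists_uniformizer := by
    obtain ⟨t, ht⟩ := E.exists_uniformizer
    refine ⟨e.symm t, ?_⟩
    change E.ord (e (e.symm t)) = 1
    rw [e.apply_symm_apply, ht]
  residue_trdeg := by
    obtain ⟨s, hs, hp⟩ := E.residue_trdeg
    refine ⟨fun i => e.symm (s i), fun i => ?_, fun p hp0 => ?_⟩
    · change 0 ≤ E.ord (e (e.symm (s i)))
      rw [e.apply_symm_apply]
      exact hs i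
    · change E.ord (e (MvPolynomial.aeval (fun i => e.symm (s i)) p)) = 0
      have h : e (MvPolynomial.aeval (fun i => e.symm (s i)) p) = MvPolynomial.aeval s p := by
        have h1 := MvPolynomial.comp_aeval (fun i => e.symm (s i)) (e : K →ₐ[ℂ] L)
        have h2 := DFunLike.congr_fun h1 p
        have h3 : (fun i => (e : K →ₐ[ℂ] L) (e.symm (s i))) = s := by
          funext i
          exact e.apply_symm_apply _
        rw [h3] at h2
        exact h2
      rw [h]
      exact hp p hp0

theorem isGT_of_equiv (e : K ≃ₐ[ℂ] L) {k : ℕ} (h : IsLogGeneralType (K := K) (k := k) fun _ => False) :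
    IsLogGeneralType (K := L) (k := k) fun _ => False := by
  obtain ⟨Φ, hsm, hmk⟩ := exists_formMap e k
  obtain ⟨m, hm, ω, hω, r, f, hf0, hf, halg⟩ := h
  refine ⟨m, hm, Φ ω, ?_, r, fun i => e (f i), ?_, ?_, ?_⟩
  · intro h0
    exact hω (formMap_injective e hmk (by rw [h0, map_zero]))
  · intro h0
    exact hf0 ((map_eq_zero_iff e e.injective).1 h0)
  · intro i E
    refine ⟨fun _ => ?_, fun h => h.elim⟩
    obtain ⟨g, η, hη, hωg, hord⟩ := (hf i (pull e E)).1 not_false
    refine ⟨e g, Φ η, formMap_regular e hmk (fun x hx => hx) hη, ?_, ?_⟩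
    · rw [hωg, hsm]
    · have h1 : e (f i) * e g ^ m = e (f i * g ^ m) := by
        rw [map_mul e, map_pow e]
      have h2 : E.ord (e (f i) * e g ^ m) = (pull e E).ord (f i * g ^ m) := by
        rw [h1]
        rfl
      rw [h2]
      exact hord
  · have hsub : ∀ x : K, x ∈ IntermediateField.adjoin ℂ (Set.range fun i => f i / f 0) →
        e x ∈ IntermediateField.adjoin ℂ (Set.range fun i => e (f i) / e (f 0)) := by
      intro x hx
      have h1 : e x ∈ (IntermediateField.adjoin ℂ (Set.range fun i => f i / f 0)).map (e : K →ₐ[ℂ] L) := ⟨x, hx, rfl⟩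
      rw [IntermediateField.adjoin_map] at h1
      refine IntermediateField.adjoin.mono _ _ _ ?_ h1
      rintro _ ⟨_, ⟨i, rfl⟩, rfl⟩
      exact ⟨i, (map_div₀ e (f i) (f 0)).symm⟩
    refine ⟨fun y => ?_⟩
    let φ : IntermediateField.adjoin ℂ (Set.range fun i => f i / f 0) →+*
        IntermediateField.adjoin ℂ (Set.range fun i => e (f i) / e (f 0)) :=
      { toFun := fun x => ⟨e x, hsub x x.2⟩
        map_one' := Subtype.ext (map_one e)
        map_mul' := fun x y => Subtype.ext (map_mul e _ _)
        map_zero' := Subtype.ext (map_zero e)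
        map_add' := fun x y => Subtype.ext (map_add e _ _) }
    have h1 := (halg.isAlgebraic (e.symm y)).ringHom_of_comp_eq φ (e : K →+* L) φ.injective (by
      ext x
      rfl)
    have h2 : (e : K →+* L) (e.symm y) = y := e.apply_symm_apply y
    rwa [h2] at h1

end Pool.Agent.H7.Bir
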